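import Mathlib
import Pool.Agent.Lib.MP_881467_an.Defs
import Pool.Agent.Lib.MP_881467_an.Count

namespace Pool.Agent.Results.MP_881467_an.AlmostAllIntegers

open Pool.Agent.Lib.MP_881467_an

open Classical in
/-- Let `D` be a finite set of cells and `j` a position.  There are constants `C` and `θ < 1` such
that for all but at most `C N^θ` of the integers `m` of any interval `[a, a + N)` of nonnegative
integers, every pattern `p ∈ S^D` is shown at position `j` by the forward orbit under `F_{×3/2}`
of the base-`6` expansion of `m`, that is, of the `0`-finite configuration with `α(x) = m`. -/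
theorem result (D : Finset ℤ) (j : ℤ) :
    ∃ C θ : ℝ, θ < 1 ∧ ∀ a N : ℕ, 1 ≤ N →
      (((Finset.Ico a (a + N)).filter (fun m : ℕ => ¬ AllPatternsAt (ofNatConf m) D j)).card : ℝ) ≤
        C * (N : ℝ) ^ θ :=
  configurations D j

end Pool.Agent.Results.MP_881467_an.AlmostAllIntegers
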