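import Mathlib
import Pool.Agent.Lib.MP_881467_an.Defs
import Pool.Agent.Lib.MP_881467_an.Count

namespace Pool.Agent.Results.MP_881467_an.AlmostAllPositions

open Pool.Agent.Lib.MP_881467_an

open Classical in
/-- Let `x` be any `0`-finite configuration other than the all-`0` configuration and `D` a finite
set of cells.  There are constants `C` and `θ < 1` such that in every interval `[a, a + N)` of
nonnegative positions, all but at most `C N^θ` positions `j` have the property that every pattern
`p ∈ S^D` is shown at position `j` by the forward orbit of `x` under `F_{×3/2}`. -/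
theorem result (x : ℤ → Fin 6) (hx : {i | x i ≠ 0}.Finite) (hne : ∃ i, x i ≠ 0)
    (D : Finset ℤ) :
    ∃ C θ : ℝ, θ < 1 ∧ ∀ a N : ℕ, 1 ≤ N →
      (((Finset.Ico a (a + N)).filter (fun j : ℕ => ¬ AllPatternsAt x D j)).card : ℝ) ≤
        C * (N : ℝ) ^ θ :=
  positions x hx hne D

end Pool.Agent.Results.MP_881467_an.AlmostAllPositions
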