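import Mathlib
import Pool.Agent.Lib.MP_881467_an.Defs
import Pool.Agent.Lib.MP_881467_an.H75.Final

set_option autoImplicit false

namespace Pool.Agent.Results.MP_881467_an.DistinctPatterns

open Pool.Agent.Lib.MP_881467_an

/-- **The patterns on a window of length `ℓ` around a fixed cell are pairwise different for `A ℓ`
steps.** Let `x ≠ 0` be a `0`-finite configuration, `c` a cell and `A` a natural number. Then there
is `n₀` such that for every window `[a, b]` which contains `c` and has length `ℓ = b - a ≥ n₀`, the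
configurations `F^s(x)` and `F^t(x)`, `F = F_{×3/2}`, differ at some cell of `[a, b]`, for all times
`n₀ ≤ s < t ≤ A ℓ`. In particular more than `A ℓ - n₀` patterns on `[a, b]` occur in the forward
orbit of `x`, for every `A`. -/
theorem result (x : ℤ → Fin 6) (hx : {i | x i ≠ 0}.Finite) (hne : ∃ i, x i ≠ 0) (c : ℤ)
    (A : ℕ) : ∃ n₀ : ℕ, ∀ a b : ℤ, a ≤ c → c ≤ b → (n₀ : ℤ) ≤ b - a → ∀ s t : ℕ, n₀ ≤ s → s < t →
      (t : ℤ) ≤ A * (b - a) →
      ∃ i, a ≤ i ∧ i ≤ b ∧ mulThreeHalves^[s] x i ≠ mulThreeHalves^[t] x i :=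
  H75.distinct x hx hne c A

end Pool.Agent.Results.MP_881467_an.DistinctPatterns
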