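import Mathlib
import Pool.Agent.Lib.MP_881467_an.Defs
import Pool.Agent.Lib.MP_881467_an.H79.Sparse

set_option autoImplicit false

namespace Pool.Agent.Results.MP_881467_an.ZeroOneLaw

open Pool.Agent.Lib.MP_881467_an Pool.Agent.Lib.MP_881467_an.H79

/-- **Zero-one law for the orbits of `0`-finite configurations under `F_{×3/2}`.**
Either every `0`-finite configuration `x ≠ 0` has a dense forward orbit (even under every power
`F^q`, `q ≥ 1`), or there is a number `c < 6`, the same for all configurations, such that for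
every `0`-finite configuration `x` at most `C(x) c^(2n+1)` of the `6^(2n+1)` patterns on the cells
`[-n, n]` occur in the forward orbit of `x`. -/
theorem result :
    (∀ x : ℤ → Fin 6, {i | x i ≠ 0}.Finite → (∃ i, x i ≠ 0) → ∀ q : ℕ, 1 ≤ q →
      Dense (Set.range fun t : ℕ => mulThreeHalves^[q * t] x)) ∨
    (∃ c : ℝ, 0 < c ∧ c < 6 ∧ ∀ x : ℤ → Fin 6, {i | x i ≠ 0}.Finite → ∃ C : ℝ, ∀ n : ℕ,
      ((Set.range fun (t : ℕ) (i : Set.Icc (-(n : ℤ)) n) =>
        (mulThreeHalves^[t] x) i).ncard : ℝ) ≤ C * c ^ (2 * n + 1)) := by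
  by_cases hg : Good ((1 : ℕ) / 6 ^ 0)
  · left
    intro x hx hne q hq
    obtain ⟨M, n, hM, rfl⟩ := exists_cfg x hx hne
    exact dense_of_goodQ M n q ((good_iff one_pos hM 0 n hg).toQ hq)
  · right
    obtain ⟨c, C, hc0, hc6, hC, hcount⟩ := sparse hg
    refine ⟨c, hc0, hc6, fun x hx => ?_⟩
    obtain ⟨M, n₀, rfl⟩ : ∃ M n₀ : ℕ, x = cfg M n₀ := by
      by_cases hne : ∃ i, x i ≠ 0
      · obtain ⟨M, n, _, h⟩ := exists_cfg x hx hne
        exact ⟨M, n, h⟩
      · push Not at hne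
        refine ⟨0, 0, ?_⟩
        funext i
        rw [hne i]
        unfold cfg
        split_ifs <;> simp
    obtain ⟨s, hs⟩ := pow_unbounded_of_one_lt M (by norm_num : 1 < 6)
    refine ⟨2 * C * c ^ (2 * (n₀ + s)), fun n => ?_⟩
    have h1 := patterns_le M n₀ n
    have h2 := compare (((1 : ℕ) : ℝ) / 6 ^ 0) M n₀ s hs.le n
    have e : (M : ℝ) / 6 ^ n₀ * (((1 : ℕ) : ℝ) / 6 ^ 0) = (M : ℝ) / 6 ^ n₀ := by simp
    rw [e] at h2
    calc ((Set.range fun (t : ℕ) (i : Set.Icc (-(n : ℤ)) n) =>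
        (mulThreeHalves^[t] (cfg M n₀)) i).ncard : ℝ)
        ≤ 2 * ((TS (((1 : ℕ) : ℝ) / 6 ^ 0) (n + n₀ + s)).ncard : ℝ) := by
          exact_mod_cast h1.trans h2
      _ ≤ 2 * (C * c ^ (2 * (n + n₀ + s) + 1)) :=
          mul_le_mul_of_nonneg_left (hcount _) (by norm_num)
      _ = 2 * C * c ^ (2 * (n₀ + s)) * c ^ (2 * n + 1) := by ring

end Pool.Agent.Results.MP_881467_an.ZeroOneLaw
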